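import Pool.Agent.H72.PSV.T2

/-! # FBS: the filtration by the degree -/

set_option autoImplicit false

open Finset

namespace Pool.Agent.H68.PSV

open Pool.Agent.H72.PSV

/-- the monomials of degree at most `n` in each variable -/
noncomputable def mn {F : Type} [Field F] {ρ : ℕ} (s : Fin ρ → F) (n : ℕ)
    (e : Fin ρ → Fin (n + 1)) : F := ∏ i, s i ^ (e i : ℕ)

theorem pf_FBS : T_FBS := by
  classical
  intro ρ K F _ _ _ s
  have hmem : ∀ (n : ℕ) (e : Fin ρ → ℕ), (∀ i, e i ≤ n) →
      ∏ i, s i ^ e i ∈ Submodule.span K (Set.range (mn s n)) := by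
    intro n e he
    exact Submodule.subset_span ⟨fun i => ⟨e i, Nat.lt_succ_of_le (he i)⟩, rfl⟩
  refine ⟨{ G := fun n => Submodule.span K (Set.range (mn s n))
            one := ?_
            mono := ?_
            mul := ?_
            fin := ?_
            dim := ?_ }, ?_⟩
  · have := hmem 1 (fun _ => 0) (fun _ => by omega)
    simpa using this
  · intro n m _ hnm
    rw [Submodule.span_le]
    rintro _ ⟨e, rfl⟩
    exact hmem m (fun i => (e i : ℕ)) (fun i => by have := (e i).2; omega)
  · intro n m _ _ x hx y hy
    have h1 : x * y ∈ Submodule.span K (Set.range (mn s n)) *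
        Submodule.span K (Set.range (mn s m)) := Submodule.mul_mem_mul hx hy
    rw [Submodule.span_mul_span] at h1
    refine (Submodule.span_le.2 ?_) h1
    rintro _ ⟨_, ⟨e, rfl⟩, _, ⟨e', rfl⟩, rfl⟩
    have h2 : mn s n e * mn s m e' = ∏ i, s i ^ ((e i : ℕ) + (e' i : ℕ)) := by
      unfold mn
      rw [← Finset.prod_mul_distrib]
      exact Finset.prod_congr rfl fun i _ => (pow_add _ _ _).symm
    show mn s n e * mn s m e' ∈ _
    rw [h2]
    exact hmem (n + m) _ (fun i => by
      have := (e i).2
      have := (e' i).2
      omega)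
  · intro n _
    exact FiniteDimensional.span_of_finite K (Set.finite_range _)
  · intro n _
    have h1 := finrank_range_le_card (R := K) (mn s n)
    rw [Fintype.card_fun, Fintype.card_fin, Fintype.card_fin] at h1
    rw [one_mul]
    exact h1
  · intro i
    have := hmem 1 (fun j => if j = i then 1 else 0) (fun j => by split_ifs <;> omega)
    simpa [Finset.prod_ite_eq'] using this

end Pool.Agent.H68.PSV
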