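import Pool.Agent.H72.PSV.T2

/-! # FST: adjunction of an element which is algebraic of bounded degree -/

set_option autoImplicit false

open Finset

namespace Pool.Agent.H68.PSV

open Pool.Agent.H72.PSV

section core

variable {K F : Type} [Field K] [Field F] [Algebra K F] {ρ c : ℕ} (Φ : Filt K F ρ c) (y : F)
  (e : ℕ)

/-- the combinations of `1, y, …, y ^ e` with coefficients in `G M` -/
def VV (M : ℕ) : Submodule K F where
  carrier := {x | ∃ g : Fin (e + 1) → F, (∀ l, g l ∈ Φ.G M) ∧ x = ∑ l, g l * y ^ (l : ℕ)}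
  add_mem' := by
    rintro _ _ ⟨g, hg, rfl⟩ ⟨g', hg', rfl⟩
    refine ⟨fun l => g l + g' l, fun l => (Φ.G M).add_mem (hg l) (hg' l), ?_⟩
    rw [← Finset.sum_add_distrib]
    exact Finset.sum_congr rfl fun l _ => (add_mul _ _ _).symm
  zero_mem' := ⟨fun _ => 0, fun _ => (Φ.G M).zero_mem, by simp⟩
  smul_mem' := by
    rintro k _ ⟨g, hg, rfl⟩
    refine ⟨fun l => k • g l, fun l => (Φ.G M).smul_mem k (hg l), ?_⟩
    rw [Finset.smul_sum]
    exact Finset.sum_congr rfl fun l _ => (smul_mul_assoc _ _ _).symm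

variable {Φ y e}

theorem VV_mono {M M' : ℕ} (h1 : 1 ≤ M) (h : M ≤ M') {x : F} (hx : x ∈ VV Φ y e M) :
    x ∈ VV Φ y e M' := by
  obtain ⟨g, hg, rfl⟩ := hx
  exact ⟨g, fun l => Φ.mono M M' h1 h (hg l), rfl⟩

theorem VV_of {M : ℕ} {x : F} (hx : x ∈ Φ.G M) : x ∈ VV Φ y e M := by
  refine ⟨Fin.cons x fun _ => 0, ?_, ?_⟩
  · intro l
    refine Fin.cases ?_ ?_ l
    · exact hx
    · intro i
      exact (Φ.G M).zero_mem
  · rw [Fin.sum_univ_succ]
    simp

theorem VV_mul {m M : ℕ} (hm : 1 ≤ m) (hM : 1 ≤ M) {g x : F} (hg : g ∈ Φ.G m)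
    (hx : x ∈ VV Φ y e M) : g * x ∈ VV Φ y e (m + M) := by
  obtain ⟨g', hg', rfl⟩ := hx
  refine ⟨fun l => g * g' l, fun l => Φ.mul m M hm hM g hg _ (hg' l), ?_⟩
  rw [Finset.mul_sum]
  exact Finset.sum_congr rfl fun l _ => (mul_assoc _ _ _).symm

variable {D : ℕ} {a : F} {b : Fin (e + 1) → F}

theorem VV_ay (hD : 1 ≤ D) (ha : a ∈ Φ.G D) (hb : ∀ l, b l ∈ Φ.G D)
    (hrel : a * y ^ (e + 1) + ∑ l, b l * y ^ (l : ℕ) = 0) {M : ℕ} (hM : 1 ≤ M) {x : F}
    (hx : x ∈ VV Φ y e M) : a * y * x ∈ VV Φ y e (D + M) := by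
  obtain ⟨g, hg, rfl⟩ := hx
  have hm : ∀ {u v : F}, u ∈ Φ.G D → v ∈ Φ.G M → u * v ∈ Φ.G (D + M) :=
    fun hu hv => Φ.mul D M hD hM _ hu _ hv
  refine ⟨fun l => Fin.cases (motive := fun _ => F) (-(b 0 * g (Fin.last e)))
    (fun i => a * g i.castSucc - b i.succ * g (Fin.last e)) l, ?_, ?_⟩
  · intro l
    refine Fin.cases ?_ ?_ l
    · exact (Φ.G _).neg_mem (hm (hb 0) (hg _))
    · intro i
      exact (Φ.G _).sub_mem (hm ha (hg _)) (hm (hb _) (hg _))
  · rw [Fin.sum_univ_castSucc (fun l : Fin (e + 1) => g l * y ^ (l : ℕ)), Fin.sum_univ_succ]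
    rw [Fin.sum_univ_succ] at hrel
    simp only [Fin.cases_zero, Fin.cases_succ, Fin.val_zero, pow_zero, mul_one, Fin.val_succ,
      Fin.val_castSucc, Fin.val_last] at hrel ⊢
    have h1 : ∑ i : Fin e, (a * g i.castSucc - b i.succ * g (Fin.last e)) * y ^ ((i : ℕ) + 1) =
        a * y * ∑ i : Fin e, g i.castSucc * y ^ (i : ℕ) -
          g (Fin.last e) * ∑ i : Fin e, b i.succ * y ^ ((i : ℕ) + 1) := by
      rw [Finset.mul_sum, Finset.mul_sum, ← Finset.sum_sub_distrib]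
      refine Finset.sum_congr rfl fun i _ => ?_
      rw [pow_succ]
      ring
    rw [h1]
    have h2 : a * y ^ (e + 1) = a * y * y ^ e := by
      rw [pow_succ]
      ring
    rw [h2] at hrel
    linear_combination g (Fin.last e) * hrel

theorem VV_ay_pow (hD : 1 ≤ D) (ha : a ∈ Φ.G D) (hb : ∀ l, b l ∈ Φ.G D)
    (hrel : a * y ^ (e + 1) + ∑ l, b l * y ^ (l : ℕ) = 0) (k : ℕ) {M : ℕ} (hM : 1 ≤ M) {x : F}
    (hx : x ∈ VV Φ y e M) : (a * y) ^ k * x ∈ VV Φ y e (k * D + M) := by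
  induction k with
  | zero => simpa using hx
  | succ k ih =>
    have h1 := VV_ay hD ha hb hrel (by omega) ih
    have h2 : (a * y) ^ (k + 1) * x = a * y * ((a * y) ^ k * x) := by
      rw [pow_succ]
      ring
    have h3 : (k + 1) * D + M = D + (k * D + M) := by ring
    rw [h2, h3]
    exact h1

theorem VV_a_pow (hD : 1 ≤ D) (ha : a ∈ Φ.G D) (k : ℕ) {M : ℕ} (hM : 1 ≤ M) {x : F}
    (hx : x ∈ VV Φ y e M) : a ^ k * x ∈ VV Φ y e (k * D + M) := by
  induction k with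
  | zero => simpa using hx
  | succ k ih =>
    have h1 := VV_mul hD (by omega) ha ih
    have h2 : a ^ (k + 1) * x = a * (a ^ k * x) := by
      rw [pow_succ]
      ring
    have h3 : (k + 1) * D + M = D + (k * D + M) := by ring
    rw [h2, h3]
    exact h1

theorem VV_prod (hD : 1 ≤ D) (ha : a ∈ Φ.G D) (hb : ∀ l, b l ∈ Φ.G D)
    (hrel : a * y ^ (e + 1) + ∑ l, b l * y ^ (l : ℕ) = 0) {M M' : ℕ} (hM : 1 ≤ M)
    (hM' : 1 ≤ M') {x x' : F} (hx : x ∈ VV Φ y e M) (hx' : x' ∈ VV Φ y e M') :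
    a ^ e * (x * x') ∈ VV Φ y e (e * D + (M + M')) := by
  obtain ⟨g, hg, rfl⟩ := hx'
  rw [Finset.mul_sum, Finset.mul_sum]
  refine Submodule.sum_mem _ fun l _ => ?_
  have hl : (l : ℕ) ≤ e := Nat.lt_succ_iff.1 l.2
  have h1 := VV_ay_pow hD ha hb hrel (l : ℕ) hM hx
  have h2 := VV_a_pow hD ha (e - l) (by omega) h1
  have h3 := VV_mul hM' (by omega) (hg l) h2
  have h4 : a ^ e * (x * (g l * y ^ (l : ℕ))) =
      g l * (a ^ (e - (l : ℕ)) * ((a * y) ^ (l : ℕ) * x)) := by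
    have h5 : a ^ e = a ^ (e - (l : ℕ)) * a ^ (l : ℕ) := by
      rw [← pow_add, Nat.sub_add_cancel hl]
    rw [h5, mul_pow]
    ring
  have h6 : e * D + (M + M') = M' + ((e - (l : ℕ)) * D + ((l : ℕ) * D + M)) := by
    have h7 : e * D = (e - (l : ℕ)) * D + (l : ℕ) * D := by
      rw [← add_mul, Nat.sub_add_cancel hl]
    rw [h7]
    ring
  rw [h4, h6]
  exact h3

theorem VV_fin {M : ℕ} (hM : 1 ≤ M) : FiniteDimensional K (VV Φ y e M) ∧
    Module.finrank K (VV Φ y e M) ≤ (e + 1) * (c * (M + 1) ^ ρ) := by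
  have := Φ.fin M hM
  set T : (Fin (e + 1) → Φ.G M) →ₗ[K] F :=
    ∑ l : Fin (e + 1), (LinearMap.mulRight K (y ^ (l : ℕ))).comp
      ((Φ.G M).subtype.comp (LinearMap.proj l)) with hT
  have hTv : ∀ g, T g = ∑ l, ((g l : Φ.G M) : F) * y ^ (l : ℕ) := by
    intro g
    rw [hT, LinearMap.sum_apply]
    rfl
  have hr : VV Φ y e M = LinearMap.range T := by
    ext x
    constructor
    · rintro ⟨g, hg, rfl⟩
      exact ⟨fun l => ⟨g l, hg l⟩, by rw [hTv]⟩
    · rintro ⟨g, rfl⟩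
      exact ⟨fun l => (g l : F), fun l => (g l).2, by rw [hTv]⟩
  rw [hr]
  refine ⟨inferInstance, (LinearMap.finrank_range_le T).trans ?_⟩
  rw [Module.finrank_pi_fintype, Finset.sum_const, Finset.card_univ, Fintype.card_fin,
    smul_eq_mul]
  exact Nat.mul_le_mul_left _ (Φ.dim M hM)

/-- the new filtration -/
theorem new_filt (hD : 1 ≤ D) (ha0 : a ≠ 0) (ha : a ∈ Φ.G D) (hb : ∀ l, b l ∈ Φ.G D)
    (hrel : a * y ^ (e + 1) + ∑ l, b l * y ^ (l : ℕ) = 0) :
    ∃ Φ' : Filt K F ρ ((e + 1) * (c * (2 * (e + 1) * D + 1) ^ ρ)),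
      (∀ n, 1 ≤ n → Φ.G n ≤ Φ'.G n) ∧ y ∈ Φ'.G 1 := by
  set E : ℕ → ℕ := fun n => 2 * (e + 1) * (n - 1) + (e + 1) with hE
  set M : ℕ → ℕ := fun n => (2 * (e + 1) * D + 1) * (n - 1) + ((e + 1) * D + 1) with hM
  have hM1 : ∀ n, 1 ≤ M n := by
    intro n
    simp only [hM]
    omega
  have hle : ∀ n, 1 ≤ n → ∀ x ∈ Φ.G n, a ^ E n * x ∈ VV Φ y e (M n) := by
    intro n hn x hx
    obtain ⟨n, rfl⟩ : ∃ n₀, n = n₀ + 1 := ⟨n - 1, by omega⟩
    have h1 := VV_a_pow (y := y) (e := e) hD ha (E (n + 1)) hn (VV_of hx)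
    have h2 : E (n + 1) * D + (n + 1) = M (n + 1) := by
      simp only [hE, hM, Nat.add_sub_cancel]
      ring
    rwa [h2] at h1
  have hinj : ∀ n, Function.Injective ((LinearMap.mulLeft K (a ^ E n)).restrict
      (p := (VV Φ y e (M n)).comap (LinearMap.mulLeft K (a ^ E n))) (q := VV Φ y e (M n))
      fun x hx => hx) := by
    intro n u v huv
    have h1 : a ^ E n * (u : F) = a ^ E n * (v : F) := congrArg Subtype.val huv
    exact Subtype.ext (mul_left_cancel₀ (pow_ne_zero _ ha0) h1)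
  refine ⟨{ G := fun n => (VV Φ y e (M n)).comap (LinearMap.mulLeft K (a ^ E n))
            one := ?_
            mono := ?_
            mul := ?_
            fin := ?_
            dim := ?_ }, ?_, ?_⟩
  · exact hle 1 le_rfl 1 Φ.one
  · intro n m hn hnm x hx
    obtain ⟨n, rfl⟩ : ∃ n₀, n = n₀ + 1 := ⟨n - 1, by omega⟩
    obtain ⟨j, rfl⟩ := Nat.exists_eq_add_of_le hnm
    have hx' : a ^ E (n + 1) * x ∈ VV Φ y e (M (n + 1)) := hx
    show a ^ E (n + 1 + j) * x ∈ VV Φ y e (M (n + 1 + j))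
    have h1 := VV_a_pow hD ha (2 * (e + 1) * j) (hM1 _) hx'
    have hn1 : n + 1 + j - 1 = n + j := by omega
    have h2 : E (n + 1 + j) = 2 * (e + 1) * j + E (n + 1) := by
      simp only [hE, hn1, Nat.add_sub_cancel]
      ring
    rw [h2, pow_add, mul_assoc]
    refine VV_mono ?_ ?_ h1
    · have := hM1 (n + 1)
      omega
    · have h3 : M (n + 1 + j) = 2 * (e + 1) * j * D + M (n + 1) + j := by
        simp only [hM, hn1, Nat.add_sub_cancel]
        ring
      omega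
  · intro n m hn hm x hx x' hx'
    obtain ⟨n, rfl⟩ : ∃ n₀, n = n₀ + 1 := ⟨n - 1, by omega⟩
    obtain ⟨m, rfl⟩ : ∃ m₀, m = m₀ + 1 := ⟨m - 1, by omega⟩
    have hx1 : a ^ E (n + 1) * x ∈ VV Φ y e (M (n + 1)) := hx
    have hx2 : a ^ E (m + 1) * x' ∈ VV Φ y e (M (m + 1)) := hx'
    show a ^ E (n + 1 + (m + 1)) * (x * x') ∈ VV Φ y e (M (n + 1 + (m + 1)))
    have h1 := VV_prod hD ha hb hrel (hM1 _) (hM1 _) hx1 hx2
    have h2 := VV_mul hD (by have := hM1 (n + 1); omega) ha h1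
    have hn1 : n + 1 + (m + 1) - 1 = n + m + 1 := by omega
    have h3 : E (n + 1 + (m + 1)) = E (n + 1) + E (m + 1) + e + 1 := by
      simp only [hE, hn1, Nat.add_sub_cancel]
      ring
    have h4 : M (n + 1 + (m + 1)) = D + (e * D + (M (n + 1) + M (m + 1))) := by
      simp only [hM, hn1, Nat.add_sub_cancel]
      ring
    have h5 : a ^ E (n + 1 + (m + 1)) * (x * x') =
        a * (a ^ e * (a ^ E (n + 1) * x * (a ^ E (m + 1) * x'))) := by
      rw [h3, pow_succ, pow_add, pow_add]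
      ring
    rw [h4, h5]
    exact h2
  · intro n hn
    obtain ⟨hf, hd⟩ := VV_fin (Φ := Φ) (y := y) (e := e) (hM1 n)
    exact FiniteDimensional.of_injective _ (hinj n)
  · intro n hn
    obtain ⟨hf, hd⟩ := VV_fin (Φ := Φ) (y := y) (e := e) (hM1 n)
    refine (LinearMap.finrank_le_finrank_of_injective (hinj n)).trans (hd.trans ?_)
    obtain ⟨n, rfl⟩ : ∃ n₀, n = n₀ + 1 := ⟨n - 1, by omega⟩
    have h1 : M (n + 1) + 1 ≤ (2 * (e + 1) * D + 1) * (n + 1 + 1) := by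
      simp only [hM, Nat.add_sub_cancel]
      nlinarith
    calc (e + 1) * (c * (M (n + 1) + 1) ^ ρ)
        ≤ (e + 1) * (c * ((2 * (e + 1) * D + 1) * (n + 1 + 1)) ^ ρ) :=
          Nat.mul_le_mul_left _ (Nat.mul_le_mul_left _ (Nat.pow_le_pow_left h1 _))
      _ = _ := by
          rw [mul_pow]
          ring
  · intro n hn x hx
    exact hle n hn x hx
  · show a ^ E 1 * y ∈ VV Φ y e (M 1)
    have h1 := VV_ay hD ha hb hrel le_rfl (VV_of (y := y) (e := e) Φ.one)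
    have h2 := VV_a_pow hD ha e (by omega) h1
    have h3 : M 1 = e * D + (D + 1) := by
      simp only [hM, Nat.sub_self, mul_zero, zero_add]
      ring
    have h4 : a ^ E 1 * y = a ^ e * (a * y * 1) := by
      simp only [hE, Nat.sub_self, mul_zero, zero_add]
      rw [pow_succ]
      ring
    rw [h3, h4]
    exact h2

end core

theorem pf_FST : T_FST := by
  classical
  intro ρ c d
  refine ⟨d * (c * (2 * d * (d + 1) + 1) ^ ρ), ?_⟩
  intro K F _ _ _ Φ y a ha hne hrel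
  -- the last coefficient
  obtain ⟨l₀, hl₀, hmax⟩ := Finset.exists_max_image (Finset.univ.filter fun l => a l ≠ 0)
    (fun l => (l : ℕ)) (by
      obtain ⟨l, hl⟩ := hne
      exact ⟨l, by simp [hl]⟩)
  have hal : a l₀ ≠ 0 := (Finset.mem_filter.1 hl₀).2
  have hzero : ∀ l : Fin (d + 1), (l₀ : ℕ) < l → a l = 0 := by
    intro l hl
    by_contra h
    have := hmax l (by simp [h])
    omega
  set A : ℕ → F := fun l => if h : l < d + 1 then a ⟨l, h⟩ else 0 with hA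
  have hAa : ∀ l : Fin (d + 1), A l = a l := by
    intro l
    simp only [hA]
    rw [dif_pos l.2]
  have hsum : ∑ l ∈ range ((l₀ : ℕ) + 1), A l * y ^ l = 0 := by
    have h1 : ∑ l ∈ range (d + 1), A l * y ^ l = 0 := by
      rw [Finset.sum_range, ← hrel]
      exact Finset.sum_congr rfl fun l _ => by rw [hAa]
    rw [← h1]
    refine Finset.sum_subset (Finset.range_subset_range.2 (by have := l₀.2; omega)) ?_
    intro l hl hl'
    rw [Finset.mem_range] at hl hl'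
    have h2 := hzero ⟨l, hl⟩ (by show (l₀ : ℕ) < l; omega)
    have h3 := hAa ⟨l, hl⟩
    rw [h2] at h3
    have h4 : A l = 0 := h3
    rw [h4, zero_mul]
  obtain ⟨e, he⟩ : ∃ e, (l₀ : ℕ) = e + 1 := by
    rcases Nat.eq_zero_or_pos (l₀ : ℕ) with h | h
    · exfalso
      rw [h] at hsum
      simp only [zero_add, Finset.sum_range_one, pow_zero, mul_one] at hsum
      have h1 := hAa l₀
      rw [h] at h1
      exact hal (by rw [← h1, hsum])
    · exact ⟨l₀ - 1, by omega⟩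
  have hed : e + 1 ≤ d := by
    have := l₀.2
    omega
  rw [he, Finset.sum_range_succ, Finset.sum_range] at hsum
  have hAe : A (e + 1) = a l₀ := by
    rw [← he]
    exact hAa l₀
  rw [hAe] at hsum
  obtain ⟨Φ', h1, h2⟩ := new_filt (Φ := Φ) (y := y) (e := e) (D := d + 1) (a := a l₀)
    (b := fun l => A l) (by omega) hal (ha l₀) (by
      intro l
      have hl : (l : ℕ) < d + 1 := by
        have := l.2
        omega
      have h3 := hAa ⟨l, hl⟩
      have h4 : A (l : ℕ) = a ⟨l, hl⟩ := h3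
      rw [h4]
      exact ha _) (by
      rw [← hsum]
      ring)
  have hcc : (e + 1) * (c * (2 * (e + 1) * (d + 1) + 1) ^ ρ) ≤
      d * (c * (2 * d * (d + 1) + 1) ^ ρ) := by
    refine Nat.mul_le_mul hed (Nat.mul_le_mul_left _ (Nat.pow_le_pow_left ?_ _))
    have : 2 * (e + 1) * (d + 1) ≤ 2 * d * (d + 1) :=
      Nat.mul_le_mul_right _ (Nat.mul_le_mul_left _ hed)
    omega
  refine ⟨{ G := Φ'.G
            one := Φ'.one
            mono := Φ'.mono
            mul := Φ'.mul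
            fin := Φ'.fin
            dim := fun n hn => (Φ'.dim n hn).trans (Nat.mul_le_mul_right _ hcc) }, h1, h2⟩

end Pool.Agent.H68.PSV
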