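import Pool.Agent.H72.PSV.T2
import Pool.Agent.H72.PSV.RKK
import Pool.Agent.H72.BF.AARN

/-! # RKN: relations over the small field for tuples -/

set_option autoImplicit false

open Finset Filter

namespace Pool.Agent.H68.PSV

open Pool.Agent.H72.BF Pool.Agent.H72.PSV

lemma eval_lastEq {n : ℕ} (x : Fin n → ℂ) (c : ℂ) (p : MvPolynomial (Fin (n + 1)) ℂ) :
    ((lastEq ℂ n p).map (MvPolynomial.eval x)).eval c =
      MvPolynomial.eval (Fin.snoc x c : Fin (n + 1) → ℂ) p := by
  induction p using MvPolynomial.induction_on with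
  | C a => rw [lastEq_C]; simp
  | add p q hp hq => rw [map_add, Polynomial.map_add, Polynomial.eval_add, hp, hq, map_add]
  | mul_X p i hp =>
    rw [map_mul, Polynomial.map_mul, Polynomial.eval_mul, hp, map_mul]
    congr 1
    refine Fin.lastCases ?_ (fun i => ?_) i
    · simp [lastEq_last]
    · simp [lastEq_castSucc]

lemma natDegree_lastEq {n : ℕ} (p : MvPolynomial (Fin (n + 1)) ℂ) :
    (lastEq ℂ n p).natDegree ≤ p.totalDegree := by
  rw [Polynomial.natDegree_le_iff_coeff_eq_zero]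
  intro j hj
  by_contra h
  have := MvPolynomial.totalDegree_coeff_finSuccEquiv_add_le
    (MvPolynomial.rename (finRotate (n + 1)) p) j (by exact h)
  have h3 := MvPolynomial.totalDegree_rename_le (finRotate (n + 1)) p
  omega

/-- Lagrange interpolation bound in several variables -/
lemma lagrN (n d : ℕ) : ∃ M : ℝ, 0 ≤ M ∧ ∀ p : MvPolynomial (Fin n) ℂ, p.totalDegree ≤ d →
    ∀ (e : ℝ), (∀ c : Fin n → ℕ, (∀ i, c i ≤ d) →
      ‖MvPolynomial.eval (fun i => ((c i : ℕ) : ℂ)) p‖ ≤ e) → ∀ m, ‖p.coeff m‖ ≤ e * M := by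
  induction n with
  | zero =>
    refine ⟨1, zero_le_one, ?_⟩
    intro p hp e he m
    have h1 := he (fun i => i.elim0) (fun i => i.elim0)
    have h2 : p = MvPolynomial.C (p.coeff 0) := by
      obtain ⟨a, ha⟩ := MvPolynomial.C_surjective (Fin 0) p
      rw [← ha]
      simp
    rw [Subsingleton.elim m 0, mul_one]
    rw [h2, MvPolynomial.eval_C] at h1
    exact h1
  | succ n ih =>
    obtain ⟨M₁, hM₁0, hM₁⟩ := Pool.Agent.H67.BF.AAR.lagr d
    obtain ⟨M₂, hM₂0, hM₂⟩ := ih
    refine ⟨M₁ * M₂, mul_nonneg hM₁0 hM₂0, ?_⟩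
    intro p hp e he m
    obtain ⟨j, m', hjm⟩ := coeff_lastEq' ℂ n p m
    rw [← hjm, ← mul_assoc]
    refine hM₂ _ ((totalDegree_lastEq ℂ n p j).trans hp) (e * M₁) ?_ m'
    intro c hc
    have h1 := hM₁ ((lastEq ℂ n p).map (MvPolynomial.eval fun i => ((c i : ℕ) : ℂ)))
      ((Polynomial.natDegree_map_le).trans ((natDegree_lastEq p).trans hp)) e (by
        intro b hb
        rw [eval_lastEq]
        have h2 := he (Fin.snoc c b) (by
          intro i
          refine Fin.lastCases ?_ (fun i => ?_) i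
          · rw [Fin.snoc_last]
            exact hb
          · rw [Fin.snoc_castSucc]
            exact hc i)
        have h3 : (fun i => (((Fin.snoc c b : Fin (n + 1) → ℕ) i : ℕ) : ℂ)) =
            (Fin.snoc (fun i => ((c i : ℕ) : ℂ)) (b : ℂ) : Fin (n + 1) → ℂ) := by
          funext i
          refine Fin.lastCases ?_ (fun i => ?_) i
          · rw [Fin.snoc_last, Fin.snoc_last]
          · rw [Fin.snoc_castSucc, Fin.snoc_castSucc]
        rwa [h3] at h2) j
    rwa [Polynomial.coeff_map] at h1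

lemma eval_aeval_append {K F : Type} [CommRing K] [CommRing F] [Algebra K F] {r n : ℕ}
    (Q : MvPolynomial (Fin (r + n)) K) (t : Fin r → F) (c : Fin n → F) :
    MvPolynomial.eval c (MvPolynomial.aeval (Fin.append (fun i => MvPolynomial.C (t i))
      MvPolynomial.X : Fin (r + n) → MvPolynomial (Fin n) F) Q) =
      MvPolynomial.aeval (Fin.append t c : Fin (r + n) → F) Q := by
  induction Q using MvPolynomial.induction_on with
  | C a =>
    rw [MvPolynomial.aeval_C, MvPolynomial.aeval_C, MvPolynomial.algebraMap_apply,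
      MvPolynomial.eval_C]
  | add p q hp hq => rw [map_add, map_add, hp, hq, map_add]
  | mul_X p i hp =>
    rw [map_mul, map_mul, hp, map_mul, MvPolynomial.aeval_X, MvPolynomial.aeval_X]
    congr 1
    refine Fin.addCases (fun i => ?_) (fun i => ?_) i
    · rw [Fin.append_left, Fin.append_left, MvPolynomial.eval_C]
    · rw [Fin.append_right, Fin.append_right, MvPolynomial.eval_X]

lemma aeval_totalDegree {N n d : ℕ} (Q : MvPolynomial (Fin N) ℤ) (hQ : Q.totalDegree ≤ d)
    (g : Fin N → MvPolynomial (Fin n) ℂ) (hg : ∀ i, (g i).totalDegree ≤ 1) :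
    (MvPolynomial.aeval g Q).totalDegree ≤ d := by
  rw [MvPolynomial.aeval_def, MvPolynomial.eval₂_eq']
  refine MvPolynomial.totalDegree_finsetSum_le fun m hm => ?_
  refine (MvPolynomial.totalDegree_mul _ _).trans ?_
  have h1 : (algebraMap ℤ (MvPolynomial (Fin n) ℂ) (Q.coeff m)).totalDegree = 0 := by
    rw [MvPolynomial.algebraMap_apply, MvPolynomial.totalDegree_C]
  rw [h1, zero_add]
  refine (MvPolynomial.totalDegree_finsetProd _ _).trans ?_
  have h2 : ∑ i, m i ≤ Q.totalDegree := by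
    have := MvPolynomial.le_totalDegree hm
    rw [Finsupp.sum_fintype _ _ (fun _ => rfl)] at this
    exact this
  refine le_trans (Finset.sum_le_sum fun i _ => ?_) (h2.trans hQ)
  refine (MvPolynomial.totalDegree_pow _ _).trans ?_
  have := Nat.mul_le_mul_left (m i) (hg i)
  rwa [mul_one] at this

lemma append_ev {H : ℕ → ℝ} (P : Pkg H) {r n : ℕ} (ξ : ℕ → Fin r → ℂ) (z : ℕ → Fin n → ℂ) :
    (fun i => P.ev (fun j => (Fin.append (ξ j) (z j) : Fin (r + n) → ℂ) i)) =
      (Fin.append (fun i => P.ev (fun j => ξ j i)) (fun i => P.ev (fun j => z j i)) :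
        Fin (r + n) → P.F) := by
  funext i
  refine Fin.addCases (fun i => ?_) (fun i => ?_) i
  · simp
  · simp

theorem pf_RKN (hEVP : T_EVP) : T_RKN := by
  classical
  intro H P r n d A ξ z hξ hzO h
  have key : ∀ j, ∃ Q : MvPolynomial (Fin (r + n)) ℤ, Q.totalDegree ≤ d ∧
      (∀ m : Fin (r + n) →₀ ℕ, |((Q.coeff m : ℤ) : ℝ)| ≤ H j) ∧
      (badRN (ξ j) d A ((j : ℝ) + 1) (H j) (z j) →
        H j ^ ((j : ℝ) + 1) * ‖MvPolynomial.aeval (Fin.append (ξ j) (z j) : Fin (r + n) → ℂ) Q‖ < 1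
        ∧ ∃ m : Fin n →₀ ℕ, 1 ≤ H j ^ A *
        ‖(MvPolynomial.aeval (Fin.append (fun i => MvPolynomial.C (ξ j i)) MvPolynomial.X :
          Fin (r + n) → MvPolynomial (Fin n) ℂ) Q).coeff m‖) := by
    intro j
    by_cases hb : badRN (ξ j) d A ((j : ℝ) + 1) (H j) (z j)
    · obtain ⟨Q, h1, h2, h3, h4⟩ := hb
      exact ⟨Q, h1, h2, fun _ => ⟨h3, h4⟩⟩
    · refine ⟨0, by simp, ?_, fun h => absurd h hb⟩
      intro m
      have h2 := P.hH j
      simp
      linarith
  choose Q h1 h2 h3 using key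
  have hco' : ∀ j, ∀ m : Fin (r + n) →₀ ℕ, |(((Q j).coeff m : ℤ) : ℝ)| ≤ H j ^ 1 := by
    intro j m; rw [pow_one]; exact h2 j m
  obtain ⟨Q', hQd, hQc, hQe⟩ := hEVP H P (Fin (r + n)) d 1 Q h1 hco'
  have hξO : ∀ i, (fun j => ξ j i) ∈ P.O := fun i =>
    P.mem_of_le 1 fun j => by rw [pow_one]; exact hξ j i
  have hxO : ∀ (y : ℕ → Fin n → ℂ), (∀ i, (fun j => y j i) ∈ P.O) → ∀ (i : Fin (r + n)),
      (fun j => (Fin.append (ξ j) (y j) : Fin (r + n) → ℂ) i) ∈ P.O := by
    intro y hy i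
    refine Fin.addCases (fun i => ?_) (fun i => ?_) i
    · simpa using hξO i
    · simpa using hy i
  have hEv : ∀ y : ℕ → Fin n → ℂ, (∀ i, (fun j => y j i) ∈ P.O) →
      (fun j => MvPolynomial.aeval (Fin.append (ξ j) (y j) : Fin (r + n) → ℂ) (Q j)) ∈ P.O ∧
      MvPolynomial.aeval (Fin.append (fun i => P.ev (fun j => ξ j i))
        (fun i => P.ev (fun j => y j i)) : Fin (r + n) → P.F) Q' =
      P.ev (fun j => MvPolynomial.aeval (Fin.append (ξ j) (y j) : Fin (r + n) → ℂ) (Q j)) := by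
    intro y hy
    have := hQe (fun j => (Fin.append (ξ j) (y j) : Fin (r + n) → ℂ)) (hxO y hy)
    rw [append_ev] at this
    exact this
  refine ⟨Q', hQd, ?_, ?_⟩
  · rw [(hEv z hzO).2, P.ev_eq_zero (hEv z hzO).1]
    intro c
    filter_upwards [Pool.Agent.H67.BF.AAR.ev_ge c, h] with j hj hb
    have h4 := (h3 j hb).1
    have h1 := P.hH j
    have h2 : H j ^ c ≤ H j ^ ((j : ℝ) + 1) := by
      rw [← Real.rpow_natCast]
      refine Real.rpow_le_rpow_of_exponent_le (by linarith) ?_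
      have : (c : ℝ) ≤ j := by exact_mod_cast hj
      linarith
    have h3 : 0 ≤ ‖MvPolynomial.aeval (Fin.append (ξ j) (z j) : Fin (r + n) → ℂ) (Q j)‖ :=
      norm_nonneg _
    nlinarith [mul_le_mul_of_nonneg_right h2 h3]
  · intro hz
    have hc0 : ∀ c : Fin n → ℕ, P.ev (fun j => MvPolynomial.aeval (Fin.append (ξ j)
        (fun i => ((c i : ℕ) : ℂ)) : Fin (r + n) → ℂ) (Q j)) = 0 := by
      intro c
      rw [← (hEv (fun _ i => ((c i : ℕ) : ℂ)) (fun i => P.const_mem _)).2]
      have h5 := congrArg (fun p => MvPolynomial.eval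
        (fun i => P.ev (fun _ => ((c i : ℕ) : ℂ))) p) hz
      simp only [map_zero] at h5
      rw [eval_aeval_append] at h5
      exact h5
    obtain ⟨M, hM0, hM⟩ := lagrN n d
    obtain ⟨m, hm⟩ := pow_unbounded_of_one_lt M (by norm_num : (1 : ℝ) < 2)
    set n' : ℕ := ⌈|A|⌉₊ with hn'
    have hev : ∀ᶠ j in (hyperfilter ℕ : Filter ℕ),
        ∀ c ∈ Fintype.piFinset (fun _ : Fin n => Finset.range (d + 1)),
        ‖MvPolynomial.aeval (Fin.append (ξ j) (fun i => ((c i : ℕ) : ℂ)) :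
          Fin (r + n) → ℂ) (Q j)‖ * H j ^ (n' + m) ≤ 1 :=
      (Filter.eventually_all_finset _).2 fun c _ =>
        (P.ev_eq_zero (hEv (fun _ i => ((c i : ℕ) : ℂ)) (fun i => P.const_mem _)).1).1
          (hc0 c) (n' + m)
    obtain ⟨j, hj, hb⟩ := (hev.and h).exists
    obtain ⟨-, i, hi⟩ := h3 j hb
    have hH := P.hH j
    have hHp : 0 < H j := by linarith
    have hnm : 0 < H j ^ (n' + m) := pow_pos hHp _
    set p := MvPolynomial.aeval (Fin.append (fun i => MvPolynomial.C (ξ j i)) MvPolynomial.X :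
          Fin (r + n) → MvPolynomial (Fin n) ℂ) (Q j) with hp
    have hpd : p.totalDegree ≤ d := by
      refine aeval_totalDegree (Q j) (h1 j) _ fun i => ?_
      refine Fin.addCases (fun i => ?_) (fun i => ?_) i
      · rw [Fin.append_left, MvPolynomial.totalDegree_C]
        exact zero_le_one
      · rw [Fin.append_right, MvPolynomial.totalDegree_X]
    have hb2 : ∀ c : Fin n → ℕ, (∀ i, c i ≤ d) →
        ‖MvPolynomial.eval (fun i => ((c i : ℕ) : ℂ)) p‖ ≤ (H j ^ (n' + m))⁻¹ := by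
      intro c hc
      rw [hp, eval_aeval_append]
      have := hj c (by
        rw [Fintype.mem_piFinset]
        intro i
        exact Finset.mem_range.2 (Nat.lt_succ_of_le (hc i)))
      rw [← one_div, le_div_iff₀ hnm]
      exact this
    have h6 := hM p hpd _ hb2 i
    have h7 : H j ^ A ≤ H j ^ n' := by
      rw [← Real.rpow_natCast]
      refine Real.rpow_le_rpow_of_exponent_le (by linarith) ?_
      exact (le_abs_self A).trans (Nat.le_ceil _)
    have h8 : 1 ≤ H j ^ n' * ((H j ^ (n' + m))⁻¹ * M) := by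
      refine hi.trans ?_
      exact mul_le_mul h7 h6 (norm_nonneg _) (pow_pos hHp _).le
    have h9 : H j ^ n' * ((H j ^ (n' + m))⁻¹ * M) = M / H j ^ m := by
      rw [pow_add]
      field_simp
    rw [h9, le_div_iff₀ (pow_pos hHp _), one_mul] at h8
    have h10 : (2 : ℝ) ^ m ≤ H j ^ m := pow_le_pow_left₀ (by norm_num) hH m
    linarith

end Pool.Agent.H68.PSV
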